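import Pool.Agent.H15.KS.Defs2

/-! Bridge: the residue maps of the compact layer are those of H62 and H17. -/

open CategoryTheory AlgebraicGeometry

universe u

namespace Pool.Agent.H19.KB

open Pool.Agent.H15.KS

noncomputable section

variable {O F : Type u} [CommRing O] [IsLocalRing O] [Field F] (φ : O →+* F)

/-- From the discrete valuation rings of H62 to those of the compact layer. -/
def toDom (V : letI := φ.toAlgebra; Pool.Agent.H62.MK.Dom O F) : Dom φ :=
  letI := φ.toAlgebra
  { V := V.val
    dvr := V.dvr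
    res := V.resMap
    comm := fun a => ⟨V.mem a, rfl⟩ }

/-- Back. -/
def ofDom (D : Dom φ) : (letI := φ.toAlgebra; Pool.Agent.H62.MK.Dom O F) :=
  letI := φ.toAlgebra
  { val := D.V
    dvr := D.dvr
    mem := fun a => (D.comm a).choose
    dom := fun a ha => by
      obtain ⟨h, h1⟩ := D.comm a
      have h2 : IsLocalRing.residue O a = 0 := (IsLocalRing.residue_eq_zero_iff a).mpr ha
      rw [h2, map_zero] at h1
      exact (IsLocalRing.residue_eq_zero_iff _).mp h1 }

/-- The equivalence. -/
def domEquiv : (letI := φ.toAlgebra; Pool.Agent.H62.MK.Dom O F) ≃ Dom φ where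
  toFun := toDom φ
  invFun := ofDom φ
  left_inv V := rfl
  right_inv D := by
    obtain ⟨V, dvr, res, comm⟩ := D
    unfold toDom ofDom
    congr 1
    refine RingHom.ext fun x => ?_
    obtain ⟨a, rfl⟩ := IsLocalRing.residue_surjective x
    obtain ⟨h, h1⟩ := comm a
    exact h1

/-- A finite sum of arrows of `AddCommGrpCat`. -/
theorem ofHom_finsum {G H : Type u} [AddCommGroup G] [AddCommGroup H] {α : Type*}
    (f : α → G →+ H) : (∑ᶠ i, (AddCommGrpCat.ofHom (f i) : AddCommGrpCat.of G ⟶ AddCommGrpCat.of H))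
      = AddCommGrpCat.ofHom (∑ᶠ i, f i) :=
  ((AddCommGrpCat.homAddEquiv (M := AddCommGrpCat.of G) (N := AddCommGrpCat.of H)).symm.map_finsum
    f).symm

/-- The residue map, if the tame symbols and the norms agree. -/
theorem residue_eq (n : ℕ)
    (hT : ∀ (V : ValuationSubring F) [IsDiscreteValuationRing V],
      tame V.subtype (IsLocalRing.residue V) n =
        AddCommGrpCat.ofHom (Pool.Agent.H62.MK.tame (Pool.Agent.H62.MK.valDV V) n))
    (hN : ∀ {κ κ' : Type u} [Field κ] [Field κ'] (ψ : κ →+* κ'),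
      norm ψ n = AddCommGrpCat.ofHom (Pool.Agent.H62.MK.normOf ψ n)) :
    residue φ n = AddCommGrpCat.ofHom (Pool.Agent.H17.KW.resOf φ n) := by
  let := φ.toAlgebra
  unfold residue Pool.Agent.H17.KW.resOf Pool.Agent.H62.MK.gerstenResidue
  rw [← finsum_comp_equiv (domEquiv φ)]
  refine Eq.trans ?_ (ofHom_finsum (fun V : Pool.Agent.H62.MK.Dom O F => V.residue n))
  refine finsum_congr fun V => ?_
  have hd : IsDiscreteValuationRing V.val := V.dvr
  have h1 := hT V.val
  have h2 := hN V.resMap
  have h3 : tame (domEquiv φ V).V.subtype (IsLocalRing.residue (domEquiv φ V).V) n =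
      AddCommGrpCat.ofHom (Pool.Agent.H62.MK.tame (Pool.Agent.H62.MK.valDV V.val) n) := h1
  have h4 : norm (domEquiv φ V).res n =
    AddCommGrpCat.ofHom (Pool.Agent.H62.MK.normOf V.resMap n) := h2
  rw [h3, h4]
  rfl

/-- The entries of the differential, if the tame symbols and the norms agree. -/
theorem entry_eq (X : Scheme.{u}) (v w : X) (n : ℕ)
    (hT : ∀ {F : Type u} [Field F] (V : ValuationSubring F) [IsDiscreteValuationRing V],
      tame V.subtype (IsLocalRing.residue V) n =
        AddCommGrpCat.ofHom (Pool.Agent.H62.MK.tame (Pool.Agent.H62.MK.valDV V) n))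
    (hN : ∀ {κ κ' : Type u} [Field κ] [Field κ'] (ψ : κ →+* κ'),
      norm ψ n = AddCommGrpCat.ofHom (Pool.Agent.H62.MK.normOf ψ n)) :
    entry X v w n = AddCommGrpCat.ofHom (Pool.Agent.H17.KW.entry (X := X) v w n) := by
  by_cases h : v ⤳ w
  · have e1 : entry X v w n = residue (X.presheaf.stalkSpecializes h ≫ X.residue v).hom n :=
      dif_pos h
    have e2 : Pool.Agent.H17.KW.entry (X := X) v w n =
        Pool.Agent.H17.KW.resOf (Pool.Agent.H17.KW.rho h) n := dif_pos h
    rw [e1, e2]
    exact residue_eq _ n hT hN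
  · have e1 : entry X v w n = 0 := dif_neg h
    have e2 : Pool.Agent.H17.KW.entry (X := X) v w n = 0 := dif_neg h
    rw [e1, e2]
    rfl

end

end Pool.Agent.H19.KB
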